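import Pool.Agent.W798.SP.Basic

/-!
# Sum-product: the entropy of the two products (part RB)
-/

set_option autoImplicit false
set_option linter.unusedSectionVars false

open Finset
open scoped Classical

namespace Pool.Agent.W584.SPX

open Pool.Agent.W904.AK Pool.Agent.W798.SP

/-- Image laws only depend on the values on the support. -/
lemma im_congr_supp {Ω α : Type} [Fintype Ω] {p : Ω → ℝ} {f g : Ω → α}
    (h : ∀ ω, p ω ≠ 0 → f ω = g ω) (a : α) : im p f a = im p g a := by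
  rw [im_eq_sum, im_eq_sum]
  refine Finset.sum_congr rfl fun x _ => ?_
  by_cases hx : p x = 0
  · simp [hx]
  · rw [h x hx]

theorem tRB (hJ : S_J) (hSR : S_SR) (hHN : S_HN) : S_RB := by
  intro Ω Γ _ A p Lam u n x y i k hA hT hik hxy hy hE
  have hp : IsLaw p := hT.law
  obtain ⟨c, S, hS, hrel⟩ := hT.rel
  -- the gluing
  set F : Ω → Γ × (ℝ × ℝ) := fun ω => (Lam ω, (u i ω * x ω, u k ω * y ω)) with hF
  have hfg : ∀ t, im p F t = im p F t := fun _ => rfl
  set pG : Ω × Ω → ℝ := glue p p F F with hpG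
  have hG : IsLaw pG := glue_law hp hp hfg
  set LL : Ω × Ω → Γ := fun z => Lam z.1 with hLL
  have hsupp : ∀ z, pG z ≠ 0 → p z.1 ≠ 0 ∧ p z.2 ≠ 0 ∧ Lam z.1 = Lam z.2 ∧
      u i z.1 * x z.1 = u i z.2 * x z.2 ∧ u k z.1 * y z.1 = u k z.2 * y z.2 := by
    intro z hz
    obtain ⟨h0, h1, h2⟩ := glue_supp hz
    have h3 := congrArg Prod.fst h0
    have h4 := congrArg (fun t => t.2.1) h0
    have h5 := congrArg (fun t => t.2.2) h0
    exact ⟨h1, h2, h3, h4, h5⟩
  -- marginals
  have m1 : ∀ {α : Type} (a : Ω → α), CH pG LL (fun z => a z.1) = CH p Lam a := by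
    intro α a
    unfold CH
    have e1 : H pG (fun z => (LL z, a z.1)) = H p (fun ω => (Lam ω, a ω)) :=
      H_glue_fst hp hfg (fun ω => (Lam ω, a ω))
    have e2 : H pG LL = H p Lam := H_glue_fst hp hfg Lam
    rw [e1, e2]
  have hH : H pG LL = H p Lam := H_glue_fst hp hfg Lam
  -- numbers
  set Z0 := CH p Lam (zz u) with hZ0
  set hi := CH p Lam (u i) with hhi
  set hk := CH p Lam (u k) with hhk
  set R := CH p Lam (fun ω => (u i ω * x ω, u k ω * y ω)) with hR
  -- the full pair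
  set U : Ω → Γ × ((Fin 3 → ℝ) × (ℝ × ℝ)) := fun ω => (Lam ω, (zz u ω, (x ω, y ω))) with hU
  have hUF : Det p U F := Det.mk' (fun t => (t.1, (t.2.1 i * t.2.2.1, t.2.1 k * t.2.2.2)))
    fun ω _ => rfl
  have hTT : CH pG LL (fun z => (U z.1, U z.2)) = 2 * (Z0 + Real.log A.card + hi) - R := by
    have e1 : H pG (fun z => (LL z, (U z.1, U z.2))) = H pG (fun z => (U z.1, U z.2)) :=
      H_congr hG (Det.mk' (fun t => t.2) fun ω _ => rfl)
        (Det.mk' (fun t => (t.1.1, t)) fun ω _ => rfl)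
    have e2 : H pG (fun z => (U z.1, U z.2)) = H p U + H p U - H p F :=
      H_glue hp hp hfg hUF hUF
    have e3 : H p U - H p Lam = Z0 + (Real.log A.card + hi) := hE
    have e4 : H p F - H p Lam = R := rfl
    unfold CH
    rw [e1, e2, hH]
    linarith
  -- the ratios
  set r1 : Ω × Ω → ℝ := fun z => u i z.2 / u i z.1 with hr1
  set r3 : Ω × Ω → ℝ := fun z => u k z.2 / u k z.1 with hr3
  have hne : ∀ ω, p ω ≠ 0 → ∀ j, u j ω ≠ 0 := fun ω hω j => ((hrel ω hω).1 j).2.1
  have hxne : ∀ ω, p ω ≠ 0 → x ω ≠ 0 := fun ω hω => (hA _ (hxy ω hω).1).ne'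
  have q1 : ∀ z, pG z ≠ 0 → r1 z = x z.1 / x z.2 := by
    intro z hz
    obtain ⟨h1, h2, h3, h4, h5⟩ := hsupp z hz
    simp only [hr1]
    rw [div_eq_div_iff (hne _ h1 i) (hxne _ h2)]
    rw [← h4, mul_comm]
  have q3 : ∀ z, pG z ≠ 0 → r3 z = y z.1 / y z.2 := by
    intro z hz
    obtain ⟨h1, h2, h3, h4, h5⟩ := hsupp z hz
    simp only [hr3]
    rw [div_eq_div_iff (hne _ h1 k) (hxy _ h2).2]
    rw [← h5, mul_comm]
  -- the pairs
  set P : Ω × Ω → (Fin 3 → ℝ) × (Fin 3 → ℝ) := fun z => (zz u z.1, zz u z.2) with hP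
  set Qx : Ω × Ω → ℝ × ℝ := fun z => (x z.1, x z.2) with hQx
  set Qy : Ω × Ω → ℝ × ℝ := fun z => (y z.1, y z.2) with hQy
  set Wi : Ω × Ω → ℝ × ℝ := fun z => (u i z.1, u i z.2) with hWi
  set Wk : Ω × Ω → ℝ × ℝ := fun z => (u k z.1, u k z.2) with hWk
  -- (2)
  have s1 : CH pG LL (fun z => (P z, Qx z)) + CH pG LL r1 ≤ CH pG LL P + CH pG LL Qx := by
    apply CH_submod hG
    · exact Det.mk' (fun t => t.2.2 i / t.2.1 i) fun ω _ => rfl
    · exact Det.mk' (fun t => t.2.1 / t.2.2) fun ω hω => q1 ω hω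
    · exact Det.mk' (fun t => t.2) fun ω _ => rfl
  have s2 : CH pG LL (fun z => (U z.1, U z.2)) + CH pG LL r3 ≤
      CH pG LL (fun z => (P z, Qx z)) + CH pG LL Qy := by
    apply CH_submod hG
    · exact Det.mk' (fun t => t.2.1.2 k / t.2.1.1 k) fun ω _ => rfl
    · exact Det.mk' (fun t => t.2.1 / t.2.2) fun ω hω => q3 ω hω
    · refine Det.mk' (fun t => ((t.1, (t.2.1.1.1, (t.2.1.2.1, t.2.2.1))),
        (t.1, (t.2.1.1.2, (t.2.1.2.2, t.2.2.2))))) fun ω hω => ?_
      obtain ⟨h1, h2, h3, h4, h5⟩ := hsupp ω hω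
      simp only [hU, hP, hQx, hQy, hLL]
      rw [h3]
  -- (3)
  have s3 : CH pG LL (fun z => (Wi z, u k z.1)) + CH pG LL (fun z => u i z.1) ≤
      CH pG LL Wi + CH pG LL (fun z => (u i z.1, u k z.1)) := by
    apply CH_submod hG
    · exact Det.mk' (fun t => t.2.1) fun ω _ => rfl
    · exact Det.mk' (fun t => t.2.1) fun ω _ => rfl
    · exact Det.mk' (fun t => (t.2.1, t.2.2.2)) fun ω _ => rfl
  have hform : ∀ ω, p ω ≠ 0 → zz u ω = fun m => if m = i then u i ω else if m = k then u k ω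
      else -(c i (Lam ω) * u i ω + c k (Lam ω) * u k ω) / c m (Lam ω) := by
    intro ω hω
    obtain ⟨h1, h2⟩ := hrel ω hω
    funext m
    unfold zz
    by_cases hmi : m = i
    · rw [if_pos hmi, hmi]
    by_cases hmk : m = k
    · rw [if_neg hmi, if_pos hmk, hmk]
    rw [if_neg hmi, if_neg hmk]
    have h3 : ∑ j, c j (Lam ω) * u j ω =
        c i (Lam ω) * u i ω + c k (Lam ω) * u k ω + c m (Lam ω) * u m ω := by
      have h4 : (Finset.univ : Finset (Fin 3)) = {i, k, m} := by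
        symm
        apply Finset.eq_univ_of_card
        rw [Finset.card_insert_of_notMem, Finset.card_insert_of_notMem, Finset.card_singleton]
        · rfl
        · simpa using fun h => hmk h.symm
        · simp only [Finset.mem_insert, Finset.mem_singleton, not_or]
          exact ⟨hik, fun h => hmi h.symm⟩
      rw [h4, Finset.sum_insert, Finset.sum_insert, Finset.sum_singleton]
      · ring
      · simpa using fun h => hmk h.symm
      · simp only [Finset.mem_insert, Finset.mem_singleton, not_or]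
        exact ⟨hik, fun h => hmi h.symm⟩
    rw [h3] at h2
    rw [eq_div_iff (h1 m).1]
    linarith
  have s4 : CH pG LL P + CH pG LL (fun z => u k z.1) ≤
      CH pG LL (fun z => (Wi z, u k z.1)) + CH pG LL Wk := by
    apply CH_submod hG
    · exact Det.mk' (fun t => t.2.2) fun ω _ => rfl
    · exact Det.mk' (fun t => t.2.1) fun ω _ => rfl
    · refine Det.mk' (fun t => (
        (fun m => if m = i then t.2.1.1.1 else if m = k then t.2.2.1
          else -(c i t.1 * t.2.1.1.1 + c k t.1 * t.2.2.1) / c m t.1),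
        (fun m => if m = i then t.2.1.1.2 else if m = k then t.2.2.2
          else -(c i t.1 * t.2.1.1.2 + c k t.1 * t.2.2.2) / c m t.1))) fun ω hω => ?_
      obtain ⟨h1, h2, h3, h4, h5⟩ := hsupp ω hω
      simp only [hP, hLL, hWi, hWk]
      rw [hform _ h1, hform _ h2, h3]
  have s5 : CH pG LL (fun z => (u i z.1, u k z.1)) ≤ Z0 := by
    have e1 := m1 (fun ω => (u i ω, u k ω))
    rw [e1]
    exact CH_mono hp (Det.mk' (fun t => (t.2 i, t.2 k)) fun ω _ => rfl)
  have s6 : CH pG LL (fun z => u i z.1) = hi := m1 (u i)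
  have s7 : CH pG LL (fun z => u k z.1) = hk := m1 (u k)
  -- (4)
  have cu : ∀ {α : Type} (a : Ω × Ω → α),
      CH pG (fun z => ((), LL z)) a = CH pG LL a := by
    intro α a
    exact CH_congr hG (Det.mk' (fun t => t.2) fun ω _ => rfl)
      (Det.mk' (fun t => ((), t)) fun ω _ => rfl) (Det.mk' (fun t => t.2) fun ω _ => rfl)
      (Det.mk' (fun t => t.2) fun ω _ => rfl)
  have im1 : ∀ (a : Ω → ℝ) (t : Γ × ℝ), im pG (fun z => (LL z, a z.1)) t =
      im p (fun ω => (Lam ω, a ω)) t := by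
    intro a t
    exact im_glue_fst hp hfg (fun ω => (Lam ω, a ω)) t
  have im2 : ∀ (a : Ω → ℝ) (t : Γ × ℝ), im pG (fun z => (LL z, a z.2)) t =
      im p (fun ω => (Lam ω, a ω)) t := by
    intro a t
    have e1 : im pG (fun z => (LL z, a z.2)) t = im pG (fun z => (Lam z.2, a z.2)) t := by
      apply im_congr_supp
      intro z hz
      obtain ⟨h1, h2, h3, h4, h5⟩ := hsupp z hz
      simp only [hLL]
      rw [h3]
    rw [e1]
    exact im_glue_snd hp hfg (fun ω => (Lam ω, a ω)) t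
  have j1 := hJ p Lam u n hT i i pG LL (fun z => u i z.1) (fun z => u i z.2) (fun _ => ()) hG
    (im1 (u i)) (im2 (u i))
  have j2 := hJ p Lam u n hT k k pG LL (fun z => u k z.1) (fun z => u k z.2) (fun _ => ()) hG
    (im1 (u k)) (im2 (u k))
  have j3 := hJ p Lam u n hT i i pG LL (fun z => y z.1) (fun z => y z.2) (fun _ => ()) hG
    (fun t => by rw [im1 y, hy]) (fun t => by rw [im2 y, hy])
  rw [cu, cu] at j1 j2 j3
  have j4 := hSR A pG LL (fun z => x z.1) (fun z => x z.2) hA hG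
    (fun z hz => ⟨(hxy _ (hsupp z hz).1).1, (hxy _ (hsupp z hz).2.1).1⟩)
  have r3' : CH pG LL (fun z => y z.2 / y z.1) ≤ CH pG LL r3 := by
    apply CH_mono hG
    refine Det.mk' (fun t => t.2⁻¹) fun z hz => ?_
    simp only
    rw [q3 z hz, inv_div]
  have r1' : CH pG LL (fun z => x z.2 / x z.1) ≤ CH pG LL r1 := by
    apply CH_mono hG
    refine Det.mk' (fun t => t.2⁻¹) fun z hz => ?_
    simp only
    rw [q1 z hz, inv_div]
  have n1 := hHN p Lam u n hT i
  have n2 := hHN p Lam u n hT k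
  rw [hTT] at s2
  rw [s6] at s3
  rw [s7] at s4
  have j1' : 2 * CH pG LL Wi ≤ CH pG LL r1 + 6 * Real.log n + 2 * (hi + hi) - 4 * Z0 + Cst n := j1
  have j2' : 2 * CH pG LL Wk ≤ CH pG LL r3 + 6 * Real.log n + 2 * (hk + hk) - 4 * Z0 + Cst n := j2
  have j3' : 2 * CH pG LL Qy ≤ CH pG LL (fun z => y z.2 / y z.1) + 6 * Real.log n +
    2 * (hi + hi) - 4 * Z0 + Cst n := j3
  have j4' : 2 * CH pG LL Qx ≤ CH pG LL (fun z => x z.2 / x z.1) + Real.log (en A) := j4
  linarith

end Pool.Agent.W584.SPX
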